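import Pool.Agent.Lib.MP_021685_agTAL.AG
import Pool.Agent.Lib.MP_021685_agTAL.TE
import Pool.Agent.Lib.MP_021685_agSP.SPX

set_option autoImplicit false

open Polynomial Pool.Agent.Lib.MP_17a322_nt.VA

/-- **The Tate conjecture for abelian varieties over finite fields: the exact class of the CM fields for which it holds because
there are no exotic Tate classes, and one hundred per cent of all CM fields, and of the fields generated by Weil numbers, are in
the class (counted by their equations).**

Let `E i` be any CM fields (any finite number, of any degrees `2 g i`).  The family is *separated* (`TSP.Sep`) if for any two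
embeddings `x`, `y` in `ℂ` of the fields `E i` (of the same field or of two of them), `y` different from `x` and from its complex
conjugate, there is an automorphism of `ℂ` which takes `x` to its complex conjugate and fixes `y`.

(I) *The exact class.*  The following are equivalent:

* the family of the fields `E i` is separated;
* (`TAL.TatePowers`) there are no exotic Tate classes on the powers of the abelian varieties with independent Weil numbers in the
  `E i`: for all prime powers `Q` and all finite families of Weil numbers `a i k` in the `E i` for `Q` which are multiplicatively
  independent modulo `Q` for every `i` (`TWF.IsIndep`: the `(a i k) ^ 2 / Q`; for one `a i k` this says that it is not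
  supersingular), there is a monic integral polynomial `R` whose complex roots are the conjugates of the `a i k`, with any
  multiplicities, such that all Tate forms in an even number `2 n` of arguments (over all extensions of the field with `Q`
  elements) are sums of products of Tate forms in two arguments (`TSP.EvenFull`).  By Honda and Tate there are abelian varieties
  over the field with `Q` elements with the Frobenius eigenvalues `a i k` and their conjugates, and one of them is enough: if the
  family of the `E i` is not separated, there are a prime power `Q` and independent Weil numbers `a i k` for `Q` such that all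
  abelian varieties with these Frobenius eigenvalues have exotic Tate classes on their powers;
* (`TAL.TateFields`) the same for all positive integers `Q`, all `R`, all weights, and with the second factor `Z` below.

(II) *The Tate conjecture for the separated families* (`TAL.TateFields`, `TAL.TateOver`).  Let the family be separated, `Q`,
`a i k`, `R` as above. Then:

* for **every abelian variety `A`** in projective space (embedded as in `AV`; up to isomorphism every abelian variety is) over
  a field `K` with `Q` elements whose Frobenius `F` on the Tate module `V_l(A)` is semisimple (always true, by Weil) with the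
  characteristic polynomial `R`, every power `A ^ n`, and every variety `Z` over `K` with Frobenius eigenvalues as below (a space
  `W` over `ℚ_l`, the dual of `H^b(Z)`, with its operator `G`), **every Tate class on `A ^ n × Z` over the extension of any degree
  `d` of `K` is a sum of products of Tate classes of degree two on `A ^ n`** (over `K`; by Tate's theorem they are combinations of
  classes of divisors) **and of Tate classes on `Z`** (`TAL.TateLit`, `TAL.AllTate`; in odd degrees there are none but `0`); in
  particular (`W = ℚ_l`) all Tate classes on all powers of `A` over all finite extensions are algebraic.  This is proved for every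
  construction `V` of the space `V_l(A)` with its Frobenius `F` (`TAL.IsFrobMod`; it exists for every `A` and `l`: the last part of
  the theorem);
* if the roots of `R` are simple, the semisimplicity is not a hypothesis, and there is a non-degenerate alternating form `e` on
  `V_l(A)` with `e (F v) (F w) = Q e v w` (`TAL.IsPolar`); for every such `e`, for instance the class of a polarization `D` of
  `A`, only the classes of the divisors `f^* D` are needed, for the homomorphisms `f x = m_1(F) x_1 + .. + m_n(F) x_n` from
  `A ^ n` to `A`, `m_1, .., m_n` in `ℤ[X]`: Tate's theorem is not used;
* the same for all multilinear forms in terms of semisimple complex operators (`TAF.FullFor`);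
* the varieties `Z`: all Frobenius eigenvalues are, for every `i` (with some `a i k`), up to a positive power, products of
  algebraic numbers `ρ`, each a root of a rational polynomial of degree less than `2 g i`, or of angle rank less than `g i` (any
  `g i` numbers in the group generated by its roots are dependent modulo `Q`), or whose splitting field contains no field
  isomorphic to `E i` (for instance any products of varieties with Betti numbers less than `2 g i` or angle ranks less than
  `g i`);
* conversely, without the independence, if the `a i k` are not supersingular and if no two of them have equal or conjugate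
  powers: if all Tate forms (for all semisimple operators with characteristic polynomial `R`) are sums of products of those in
  two arguments, the `a i k` are multiplicatively independent modulo `Q` for every `i`.

(III) *The separated families, explicitly* (`TSP.Explicit`, `TSP.Examples`).  Let `F i` be totally real, `a i` totally negative
members of the `F i`, and `E i = F i (√(a i))` (every CM field is one of these).  The family of the `E i` is separated if and only
if for any two different embeddings `s`, `t` in `ℝ` of the fields `F i`, `F j`, the number `s (a i) t (a j)` is not a square in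
the compositum of `s (F i)` and `t (F j)`.  A CM field of degree `2 p`, for an odd prime `p`, is separated (`TSP.Sep1`: the case
`r = 1`) if and only if it contains no imaginary quadratic field.  A family is separated if its members are separated and have
different Galois closures; or if the members have all the sign changes (`TAL.AllSigns`) and are apart (`TAL.Apart`).

(IV) *One hundred per cent of all Weil numbers.*  Let `Y` be any set of real Weil polynomials of degree `g` (monic integer
polynomials all of whose roots `x` are real, `x ^ 2 ≤ 4 q`) which contains at least the part `δ > 0` of them.  For all `r`, for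
all but at most the part `r e / δ` of the `r`-tuples of members `t i` of `Y`, the number fields `E i` generated by roots `π` of
`X ^ g t i (X + q / X)` (Weil numbers) are CM fields of degree `2 g`, and the family is separated (`TAL.SepWeil`), and (II) holds
for the Frobenius `π` themselves, that is for the product of abelian varieties `A i` with the real Weil polynomials `t i`
(`TAL.TateFrob`): here

* `e = C (log g) / g` for every `q ≥ 2` and all `g ≥ g₀`, with `C` and `g₀` which depend on `q` (and `p`);
* `e = C exp (- c √(log q))` for every `g ≥ 3` and all prime powers `q`, with `C` and `c > 0` which depend on `g`.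

`Y` is any set of real Weil polynomials of positive density, for instance those of the isogeny classes of the abelian varieties
over the field with `q` elements (Honda, Tate), or of the ordinary ones (constant coefficient prime to `p`, at least a third of
all for large `g`).

(V) *One hundred per cent of all CM fields* of degree `2 g`, `g ≥ 3`, counted by the polynomials `t`.  Every CM field of degree
`2 g` is generated by a root of `t (X ^ 2)` for a monic integer polynomial `t` of degree `g` all of whose roots are real and
negative.  For any subset `Y` of the set of those with roots in `[-N, 0)` (`HT.Tot g N`) which contains at least the part `δ > 0`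
of them, and all `r`, for all but at most the part `(r / δ) C exp (- c √(log N))` of the `r`-tuples of members `t i` of `Y`, the
number fields `E i` generated by roots of the `t i (X ^ 2)` are CM fields of degree `2 g`, and the family is separated
(`TAL.SepRoot`); `C` and `c > 0` depend on `g`. -/
theorem Pool.Agent.Results.MP_021685_ag.AlmostAll.result :
    (∀ (r : ℕ) (g : Fin r → ℕ) (E : Fin r → Type) [∀ i, Field (E i)] [∀ i, NumberField (E i)],
      (∀ i, NumberField.IsCMField (E i) ∧ Module.finrank ℚ (E i) = 2 * g i) →
        (TSP.Sep E ↔ TAL.TatePowers E) ∧ (TSP.Sep E ↔ TAL.TateFields g E)) ∧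
    TSP.Explicit ∧ TSP.Examples ∧
    (∀ q : ℕ, 2 ≤ q → ∀ p : ℕ, 2 ≤ p → ∃ C : ℝ, ∃ g₀ : ℕ, ∀ g : ℕ, g₀ ≤ g →
      (TI.Weil q g).Finite ∧ 0 < (TI.Weil q g).ncard ∧
        (TI.Weil q g).ncard ≤ 3 * ({h | h ∈ TI.Weil q g ∧ ¬ (p : ℤ) ∣ h.coeff 0} : Set ℤ[X]).ncard ∧
        ∀ (δ : ℝ) (Y : Set ℤ[X]), 0 < δ → Y ⊆ TI.Weil q g → δ * ((TI.Weil q g).ncard : ℝ) ≤ (Y.ncard : ℝ) → ∀ r : ℕ,
          (({t : Fin r → ℤ[X] | (∀ i, t i ∈ Y) ∧ ¬ (TAL.SepWeil q g t ∧ TAL.TateFrob q g t)}).ncard : ℝ) ≤
            C * r * Real.log g / (δ * g) * (Y.ncard : ℝ) ^ r) ∧
    (∀ g : ℕ, 3 ≤ g → ∃ C c : ℝ, 0 < c ∧ ∀ q : ℕ, IsPrimePow q →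
      (TI.Weil q g).Finite ∧ 0 < (TI.Weil q g).ncard ∧
        ∀ (δ : ℝ) (Y : Set ℤ[X]), 0 < δ → Y ⊆ TI.Weil q g → δ * ((TI.Weil q g).ncard : ℝ) ≤ (Y.ncard : ℝ) → ∀ r : ℕ,
          (({t : Fin r → ℤ[X] | (∀ i, t i ∈ Y) ∧ ¬ (TAL.SepWeil q g t ∧ TAL.TateFrob q g t)}).ncard : ℝ) ≤
            C * r * Real.exp (-c * Real.sqrt (Real.log q)) / δ * (Y.ncard : ℝ) ^ r) ∧
    (∀ g : ℕ, 3 ≤ g →
      (∀ (E : Type) [Field E] [NumberField E], NumberField.IsCMField E → Module.finrank ℚ E = 2 * g →
        ∃ N : ℕ, 1 ≤ N ∧ ∃ t ∈ HT.Tot g N, HT.IsRootField t E) ∧
      ∃ C c : ℝ, 0 < c ∧ ∀ N : ℕ, 1 ≤ N → (HT.Tot g N).Finite ∧ 0 < (HT.Tot g N).ncard ∧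
        ∀ (δ : ℝ) (Y : Set ℤ[X]), 0 < δ → Y ⊆ HT.Tot g N → δ * ((HT.Tot g N).ncard : ℝ) ≤ (Y.ncard : ℝ) → ∀ r : ℕ,
          (({t : Fin r → ℤ[X] | (∀ i, t i ∈ Y) ∧ ¬ TAL.SepRoot g t}).ncard : ℝ) ≤
            C * r * Real.exp (-c * Real.sqrt (Real.log N)) / δ * (Y.ncard : ℝ) ^ r) ∧
    ∀ (K : Type) [Field K] [Fintype K] (N : ℕ) (A : AV K N) (l : ℕ) [Fact l.Prime],
      ∃ (V : Type) (_ : AddCommGroup V) (_ : Module ℚ_[l] V) (_ : Module.Finite ℚ_[l] V)
        (ι : (ℕ → A.Pts (AlgebraicClosure K)) → V) (F : V →ₗ[ℚ_[l]] V), TAL.IsFrobMod A l ι F :=
  ⟨fun _ _ _ _ _ hE => TAL.exact hE, TSP.explicit, TSP.examples, TAL.weil_fixed, TAL.weil_degree, TAL.cm_degree,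
    fun _ _ _ _ A l _ => TAL.exists_frobMod A l⟩
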