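import Pool.Agent.Lib.MP_021685_agTM.Top11
import Pool.Agent.Lib.MP_021685_agTT.GM

set_option autoImplicit false

open Polynomial

/-- **Tate classes on all powers of abelian varieties over number fields, and on their products with any foreign varieties, are
generated in degree two, if every factor has one place, of its own, with good Frobenius eigenvalues.  Good are all abelian
varieties over finite fields without exotic Tate classes on their powers and without multiple Frobenius eigenvalues; the criterion
is explicit for the Weil numbers in CM fields, and holds for one hundred per cent of the Weil numbers.**

`TPM.Good Q P S`: let `A` be an abelian variety over a field with `Q` elements with Frobenius polynomial `P` without multiple roots,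
and `S` a multiplicatively closed set of numbers.  Then `P` and `S` are good if there are no exotic Tate classes on the varieties
`A ^ n × Z`, for all varieties `Z` all whose Frobenius eigenvalues are in `S`: over every extension of the field, all Tate classes
are sums of products of Tate classes of degree two on `A ^ n` (divisors, by Tate) and Tate classes of `Z` over **the same**
extension (`TAF.FullFor`; this is a property of the polynomial `P` and of `S`; for `Z` a point it says that the Frobenius torus is
maximal).

(1) `LitPlace`: let `B` be an abelian variety over a number field `K`, `l` a prime number, `Z` a variety over `K` (any continuous
representation `W`; `V_l(B)` is the Tate module of the group of the points of `B` over the algebraic closure, in any of its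
constructions, with the action of the Galois group on the coordinates of the points: `IsGalMod`, `TAL.IsTateMod`; it exists, of
finite dimension, for every `B` and `l`: this is the first clause).  A Frobenius element `φ` of a place of `K` which does not
divide `l`, with residue field of `Q` elements, is good for `P` if `P` and `S` are good for `Q` and all Frobenius eigenvalues of
`Z` at the place are in `S`, for some `S`.

(a) If the characteristic polynomial on `V_l(B)` of **one** Frobenius element, which is good for `P`, is `P`, then all Tate
classes on all `B ^ n × Z` over all finite extensions of `K` are sums of products of Tate classes of degree two on `B ^ n` (these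
are combinations of classes of divisors, by the theorem of Faltings) and Tate classes of `Z`, over a finite extension
(`Generated`).  Nothing is assumed on the endomorphisms of `B` and on the other places.

(b) The same holds if the action on `V_l(B)` is semisimple (Faltings), and every piece `U` of `V_l(B) ⊗ ℂ` (a non-zero subspace
stable under a subgroup of finite index, without smaller ones) has a good Frobenius element **of its own** (`TPM.Enough`): `U` is
symplectic (with multiplier the cyclotomic character, for a subgroup of finite index), contained in a subspace `V` stable under
the Frobenius element, on which all its eigenvalues are roots of `P` or in `S`, and one root of `P` has multiplicity one on `U`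
(or: `V = V_l(B) ⊗ ℂ`, and one root of `P` has multiplicity one on `V` and occurs on `U`); or `U` has dimension one, where **one**
good Frobenius element has different roots of `P` as eigenvalues on the different pieces of dimension one.

(2) `LitLift`: the same for abelian varieties over any field (with Frobenius elements `φ` in the Galois group: `χ (φ) = Q`, `χ` the
cyclotomic character), and (3) `TPM.FullG`: for the actions on `H` and `W` of any group `G` which preserves a non-degenerate
alternating form on `H` up to a character `μ`.

(4) **Foreign varieties.**  If there are no exotic Tate classes on the powers of `A` (`TSF.EvenFull`: over every extension, all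
Tate classes on the powers are sums of products of Tate classes of degree two over the same extension; and no root of `P` is
real, as the real Frobenius eigenvalues of an abelian variety have even multiplicities), then `P` is good, with `S` the set of all
**foreign numbers** `y` (`TSF.SmallFor`): for every product `u` of roots of `P`, no power of which is a power of `Q`, if `n` of the
conjugates of `u`, and not more, are multiplicatively independent modulo `Q`, a power of `y` is a product of numbers which are
roots of rational polynomials of degree less than `2 n`, or of angle rank less than `n` (any `n` numbers in the group generated by
the roots are multiplicatively dependent modulo `Q`), or with a splitting field which contains no power of `u`.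

(5) `P` is good, with `S` as in (4), if its roots are the conjugates of Weil numbers `a i k` for `Q` in CM fields `E i` (any number
of fields, of any degrees `2 (g i)`, and any number of `a i k` in each field, multiplicatively independent modulo `Q` for each
`i`), such that for any two embeddings `x`, `y` of the fields in `ℂ` (of one of them or of two of them), `y` different from `x`
and from its complex conjugate, there is an automorphism of `ℂ` which changes `x` to its complex conjugate and fixes `y`
(`TPM.Family`, `TGR.IsOver`; by `MP_021685_ag.AlmostAll` the condition on the fields is necessary).  Then for every `u` as in (4)
there is an `i` with at least `g i` independent conjugates of `u`, and such that every splitting field which contains a power of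
`u` contains a field isomorphic to `E i` (`TSF.Wide`).  So a number is foreign if for every `i` a power is a product of numbers
which are roots of rational polynomials of degree less than `2 (g i)`, or of angle rank less than `g i`, or with a splitting field
which contains no field isomorphic to `E i`.

(5a) The condition on the fields is explicit (`TSP.Explicit`): every CM field is `E i = F i (√(c i))`, with `F i` totally real and
`c i` totally negative, and the condition says that for any two different embeddings `s : F i → ℝ`, `t : F j → ℝ` of these fields
(of one of them or of two of them) `s (c i) * t (c j)` is not a square in the compositum of `s (F i)` and `t (F j)`.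

(5b) Examples (`TSP.Examples`): all families of CM fields with different Galois closures, each of which satisfies the condition
alone; **a CM field of degree `2 p`, `p` an odd prime number, satisfies it if and only if it contains no imaginary quadratic
field**; and all families of CM fields with all the sign changes (for every embedding in `ℂ` there is an automorphism of `ℂ` which
changes it to its complex conjugate and fixes the other embeddings), pairwise not isomorphic, such that any two of them have
different Galois closures, or the maximal real subfield of one of them has no automorphism of order two.

(6) One hundred per cent of the Weil numbers generate such fields: let `q ≥ 2`; there is a constant `C` such that for all large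
`g`, for every set `Y` of real Weil polynomials of degree `g` for `q` which contains at least the part `δ` of all of them, and for
every number `r`, for all but at most the part `C r log g / (δ g)` of the `r`-tuples `t` of members of `Y`, the fields `E i`
generated by the roots of `frobPoly q (t i)` (the characteristic polynomial of the Frobenius) are CM fields of degree `2 g` with
all the sign changes, their maximal real subfields have no automorphisms, no two of the `E i` are isomorphic, the family of the
`E i` satisfies the condition of (5), and the product of the `frobPoly q (t i)` is one of the polynomials `P` over the `E i` for
`q`.

(7) The same for every fixed `g ≥ 3`, for the prime powers `q` tending to infinity: all but at most the part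
`C r exp (- c √ (log q)) / δ` of the tuples.

The pieces of an abelian variety of type I or II in the classification of Albert (the simple ones with totally real centre of the
endomorphism algebra, if the algebra is commutative or an indefinite quaternion algebra) are symplectic.  So, with the theorems of
Faltings (not in the Lean):

* the Tate conjecture holds for all powers of every abelian variety over a number field with **one** good reduction whose
  Frobenius polynomial is good; and for the product of one of these varieties and of a variety `Z` with Frobenius eigenvalues in
  `S` at the place it is equivalent to the Tate conjecture for `Z`;
* **the Tate conjecture holds for all products of powers of any number of abelian varieties `A_1, .., A_n` over number fields,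
  geometrically simple of type I or II, each with one good reduction, at a place of its own, isogenous to `B_j × C_j` (type II:
  `B_j ^ 2 × C_j`), where `B_j` is any abelian variety without exotic Tate classes on its powers and without multiple Frobenius
  eigenvalues, and the Frobenius eigenvalues of `C_j` are foreign (4).**  For example the Frobenius field of `B_j` is a CM field
  of degree `2 dim (B_j)` with the property `TSP.Sep1` (as in the one hundred per cent, or if `dim (B_j)` is an odd prime number
  and the field contains no imaginary quadratic field; if `B_j` is an elliptic curve, it is not supersingular), and `C_j` is of
  dimension less than that of `B_j`, or supersingular, or a product of such abelian varieties.  Nothing is assumed on the other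
  factors at the place of `A_j`, not even good reduction.  Abelian varieties with complex multiplication can be added if one good
  Frobenius element has different roots of `P` as eigenvalues on all their lines;
* let `X` be a smooth complete intersection of odd dimension `w`, `H` the dual of `H^w (X)`, `μ` the `w`-th power of the
  cyclotomic character, and the Frobenius polynomial of **one** good reduction, over the field with `q'` elements, one of the
  polynomials `P` for `Q = q' ^ w`: the Tate conjecture for all powers of `X` follows from the Tate conjecture for `X × X`
  (by (3); nothing is assumed on the semisimplicity of the action).

The ordinary ones (constant coefficient prime to `p`) are at least one third of the real Weil polynomials.  By Honda and Tate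
the isogeny classes form a set of real Weil polynomials which contains the ordinary ones, so it is one of the sets `Y`, as are
the ordinary isogeny classes, and all sets of isogeny classes of positive density. -/
theorem Pool.Agent.Results.MP_021685_ag.AlmostAllLifts.result :
    (∀ (K : Type) [Field K] (N : ℕ) (B : Pool.Agent.Lib.MP_17a322_nt.VA.AV K N) (l : ℕ) [Fact l.Prime],
      ∃ (V : Type) (_ : AddCommGroup V) (_ : Module ℚ_[l] V) (_ : FiniteDimensional ℚ_[l] V)
        (ι : (ℕ → B.Pts (AlgebraicClosure K)) → V) (ρ : Representation ℚ_[l] (Pool.Agent.Lib.MP_021685_agTT.GalK K) V),
        Pool.Agent.Lib.MP_021685_agTT.IsGalMod B l ι ρ) ∧
    Pool.Agent.Lib.MP_021685_agTT.LitPlace ∧ Pool.Agent.Lib.MP_021685_agTT.LitLift ∧ TPM.FullG ∧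
    (∀ (Q : ℕ) (P : ℤ[X]), 1 < Q → P.Monic → (P.map (Int.castRingHom ℂ)).Separable →
      (∀ z : ℂ, aeval z P = 0 → z * starRingEnd ℂ z = (Q : ℂ) ∧ starRingEnd ℂ z ≠ z) → TSF.EvenFull Q P →
        TPM.Good Q P (TSF.SmallFor Q P)) ∧
    (∀ (r : ℕ) (g : Fin r → ℕ) (E : Fin r → Type) [∀ i, Field (E i)] [∀ i, NumberField (E i)] (Q : ℕ) (P : ℤ[X]),
      TPM.Family g E → 1 < Q → TGR.IsOver Q E P → TPM.Good Q P (TSF.SmallFor Q P) ∧ TSF.Wide Q g E P ∧
        ∀ y : ℂ, (∀ i, TAF.Small Q (TAL.Gens (E i)) (g i) y) → TSF.SmallFor Q P y) ∧
    TSP.Explicit ∧ TSP.Examples ∧
    (∀ q p : ℕ, 2 ≤ q → 2 ≤ p → ∃ C : ℝ, ∃ g₀ : ℕ, ∀ g : ℕ, g₀ ≤ g →
      (TI.Weil q g).Finite ∧ 0 < (TI.Weil q g).ncard ∧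
        (TI.Weil q g).ncard ≤ 3 * ({h | h ∈ TI.Weil q g ∧ ¬ (p : ℤ) ∣ h.coeff 0} : Set ℤ[X]).ncard ∧
        ∀ (δ : ℝ) (Y : Set ℤ[X]), 0 < δ → Y ⊆ TI.Weil q g → δ * ((TI.Weil q g).ncard : ℝ) ≤ (Y.ncard : ℝ) → ∀ r : ℕ,
          (({t : Fin r → ℤ[X] | (∀ i, t i ∈ Y) ∧ ¬ (TAL.GenericFields q g t ∧ TPM.FrobOver q g t)}).ncard : ℝ) ≤
            C * r * Real.log g / (δ * g) * (Y.ncard : ℝ) ^ r) ∧
    (∀ g : ℕ, 3 ≤ g → ∃ C c : ℝ, 0 < c ∧ ∀ q : ℕ, IsPrimePow q →
      (TI.Weil q g).Finite ∧ 0 < (TI.Weil q g).ncard ∧
        ∀ (δ : ℝ) (Y : Set ℤ[X]), 0 < δ → Y ⊆ TI.Weil q g → δ * ((TI.Weil q g).ncard : ℝ) ≤ (Y.ncard : ℝ) → ∀ r : ℕ,
          (({t : Fin r → ℤ[X] | (∀ i, t i ∈ Y) ∧ ¬ (TAL.GenericFields q g t ∧ TPM.FrobOver q g t)}).ncard : ℝ) ≤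
            C * r * Real.exp (-c * Real.sqrt (Real.log q)) / δ * (Y.ncard : ℝ) ^ r) :=
  ⟨fun _ _ _ B l _ => Pool.Agent.Lib.MP_021685_agTT.exists_galMod B l, TPM.main11⟩
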