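import Pool.Agent.Lib.MP_021685_agO6.Main

set_option autoImplicit false

open Module Pool.Agent.Lib.MP_021685_agO Pool.Agent.Lib.MP_021685_agZ Pool.Agent.Lib.MP_021685_agN
  Pool.Agent.Lib.MP_021685_agO5 Pool.Agent.Lib.MP_021685_agO6

/-- **Abelian varieties which can be cancelled from the Tate conjecture; one place decides.** Let `k` be an
algebraically closed field of characteristic zero, `k₀` a field with an embedding into `k`, and `H = k ^ ι` (`ι`
finite). Let `g` be a Lie algebra of endomorphisms of `H` which acts semisimply on `H`, and `c` a `k`-valued function
such that `g` is spanned by its Hodge elements, the idempotents `h` in `g` with `c h = 1`. (The Lie algebra of the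
Galois group of a number field on `H_1` of an abelian variety `C`, with coefficients in `k`: Faltings, Bogomolov, Pink;
`c` is the multiplier.) Let `H = H₀ ⊕ H₁` with `g`-stable `H₀`, `H₁`, such that every endomorphism of `H` which
commutes with `g` maps `H₁` into itself. (For `C = A × B` take for `H₁` the sum of the simple subspaces which are
isomorphic to subspaces of the part of `A`; then `H₀` is the part of a factor of `B`. `B` is arbitrary.) Suppose that
`H₁` is contained in the sum of the odd subspaces `V`: they are simple, have a symplectic form with multiplier `c`, and
one of the following holds.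

* (`OddFour`) Every Tate form with four arguments on `H` is on `V` a linear combination of products of two values of
  the symplectic form. (This is so if `A` has no geometric simple factor of type III or IV and the Tate
  classes of codimension two on `A ^ 4` are generated by the classes of divisors.)
* (`OddSimple`) For an element `N` of `g`, homogeneous of degree `1` or `-1` with respect to a Hodge element, the rank
  of `N` on `V` is odd or two. (For example, the monodromy operator of a place of bad reduction.)
* (`OddPlace`) Every ideal of `g` acts on `V` by scalars or irreducibly, and either for two Hodge elements `h`, `h'`,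
  conjugate in the group `E` generated by the `t e + (1 - e)` (`e` a Hodge element), the rank `r` of `(1 - h') h` on
  `V` is positive and the pair `(d, r)`, `d = dim V / 2`, is not exceptional, or for an element `u` of `E` and a scalar
  `a` the rank of `u - a` on `V` is positive and less than `d / 2`. The exceptional pairs: `d = 2 ^ t` with `t > 3`,
  `t` congruent to `0` or `1` modulo four, and `r = d` or `2 r = d`; and `d = (2 m - 1).choose m`,
  `r = (2 m - 2).choose (m - 1)` with `m > 1` odd.
* (`OddDisc`) `g` and `c` are stable under the automorphisms of `k` over `k₀`, and there is a matrix `F` with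
  entries in `k₀` which maps `V` to itself, is in the algebra generated by the Hodge elements `e` with
  `e F = F e`, and such that the discriminant of the characteristic polynomial of `F` on `V` is not the square
  of an element of `k` which is fixed by all the automorphisms of `k` over `k₀` which map `V` to itself.

Let `N j` (`j = 0, .., m - 1`) be finite-dimensional spaces and `G` a Lie algebra of pairs `(X, Y)` of an
endomorphism `X` of `H` and of a family `Y` of endomorphisms `Y j` of the `N j`, such that `g` is the set of the
first components (`IsLieOver`). Suppose that every `N j` is small (`IsSmall`) compared with every simple subspace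
`U` of `H₁`: the dimension of `N j` is less than the dimension of `U`; or `dim U ≠ 4` and for a pair `(h, Y)` in
`G`, `h` a Hodge element, at most one generalised eigenspace of `Y j` has a dimension `≥ dim U / 2`; or for a
pair `(X, Y)` in `G` the endomorphism `Y j` is a scalar, but `X` is not a scalar on `U`. Let `N'` be a vector
space and `θ` a linear map from the families of endomorphisms of the `N j` to the endomorphisms of `N'` (for
example the action on a tensor product of spaces `N j` and their duals, with repetitions).

Then every Tate map `T` (`IsTateMap`) with `s` arguments in `H`, with values in `N'`, and of weight `i` is a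
linear combination of products of Tate forms with two arguments on `H` and of a Tate map with values in `N'`,
which is zero as soon as one of its arguments is in `H₁`. (The Tate forms are the Tate maps for `N' = k`, `θ = 0`
and `i = 0`. For `m = 0`, `N' = k` and `C = A × B`, applied to alternating forms: the Tate classes on `A × B` are generated
by Tate classes of degree one (divisors) and Tate classes on `B`.) -/
theorem Pool.Agent.Results.MP_021685_ag.OnePlace.result
    {k₀ k ι N' : Type*} {m : ℕ} {N : Fin m → Type*} [Field k₀] [Field k] [CharZero k]
    [IsAlgClosed k] [Algebra k₀ k] [Fintype ι] [DecidableEq ι] [∀ j, AddCommGroup (N j)]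
    [∀ j, Module k (N j)] [∀ j, FiniteDimensional k (N j)] [AddCommGroup N'] [Module k N']
    {g : Submodule k (Module.End k (ι → k))} {c : Module.End k (ι → k) → k}
    (hg : IsGaloisAlg g c) {H₀ H₁ : Submodule k (ι → k)} (hc : IsCompl H₀ H₁)
    (h₀ : IsStable g H₀) (h₁ : IsStable g H₁)
    (hHom : ∀ φ : Module.End k (ι → k), (∀ X ∈ g, φ * X = X * φ) → ∀ u ∈ H₁, φ u ∈ H₁)
    (hodd : H₁ ≤ sSup {V | OddFour g c V ∨ OddSimple g c V ∨ OddPlace g c V ∨ OddDisc k₀ g c V})
    {G : Module.End k (ι → k) → (∀ j, Module.End k (N j)) → Prop} (hG : IsLieOver g G)
    (hN : ∀ U ≤ H₁, IsSimpleSub g U → ∀ j, IsSmall g c G j U)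
    (θ : (∀ j, Module.End k (N j)) → Module.End k N') (hθ : IsLinearMap k θ) (i s : ℕ)
    (T : MultilinearMap k (fun _ : Fin s => ι → k) N') (hT : IsTateMap G c θ i s T) :
    IsGenMap g c G θ H₁ i s T :=
  main12 (k₀ := k₀) hg hc h₀ h₁ hHom hodd hG hN θ hθ i s T hT
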