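import Pool.Agent.Lib.MP_021685_agUZ.ZM
import Pool.Agent.Lib.MP_021685_agTAL.AG
import Pool.Agent.Lib.MP_021685_agTT.GM

set_option autoImplicit false

/-- **The Tate conjecture for the powers of abelian varieties without simple factors of type III over number fields: the Tate
classes of degree four on the fourth power and a numerical condition on the multiplicities on the tangent space of the part of type
IV decide whether there are exotic Tate classes on any power, in any degree.  For the type IV: if these multiplicities are coprime
or their sum is prime, the classes of degree four are not needed; and one hundred per cent of the CM fields (in the centre of the
endomorphism algebra) satisfy the other conditions, if there are unbalanced multiplicities.**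

(1) *The abelian varieties* (`TUT.IsUnitary`).  Let `A` be an abelian variety over a number field `K`, all of whose endomorphisms
over the algebraic closure are defined over `K`, and all of whose simple factors are of type IV in the classification of Albert:
the centre of the algebra `D = End (A) ⊗ ℚ` is a product of CM fields `E i`, one for each isotypic factor of `A`, and the simple
factor of `D` over `E i` has dimension `N i ^ 2` over `E i` (`TUT.IsCentre`; any division algebras, any powers: `N i` is the product
of the index of the division algebra and of the exponent).  For an embedding `σ` of `K` in `ℂ` and an embedding `f` of one of the
fields `E i` in `ℂ` let `n σ f` be the multiplicity of `f` in the tangent space of `A` at `0`, extended to `ℂ` by `σ`; it is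
divisible by `N i`, and `n σ f + n σ (conj f) = m i * N i`, with `m i = 2 dim (A i) / ([E i : ℚ] N i)`, `A i` the isotypic factor
(`TUT.IsRank n N i m`: `m i` is `m`).
`TUT.IsUnitary` says this in terms of the Tate module `V = V_l (A)` (in any of its constructions; it exists for every `A` and `l`:
`TUT.Models`), with the action `ρ` of the absolute Galois group of `K`, the Weil pairing `e` of a polarization, the action `b` of
`D`, the inclusion `c` of the centre, `t x` the trace of `x` on the tangent space; it contains the following theorems as hypotheses:
`IsFaltings` (Tate, Faltings: `b` is injective on `D ⊗ ℚ_l`, the action of the Galois group of every finite extension of `K` is
semisimple, and its commutant is the span of `D`), `IsRosati` (the Rosati involution is the complex conjugation on the centre),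
`IsType` (the trace on the tangent space), and `IsHT`: the Hodge-Tate decomposition of `V ⊗ ℂ_l` at the place of `K` given by `σ`
and an isomorphism of `ℂ` with `ℂ_l` (`h` is the projector to the part of weight `1`, which is the tangent space, and by Tate and
Sen all Tate classes on the powers of `A` over all finite extensions have the expected weights).  Nothing else is assumed, except in
(4): not the Mumford-Tate conjecture, and nothing on the reduction of `A` at any place.

(2) *Tate classes.*  `TUT.AllTate`: all Tate classes on all powers of `A` over all finite extensions of `K` are sums of products of
Tate classes of degree two; by the theorem of Faltings the latter are combinations of classes of divisors, so the Tate conjecture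
holds for all powers of `A` in all degrees.  `TUT.FourTate ρ P`: the same for the Tate classes of **degree four** on the **fourth
power** only; for `P = 1` for those of `A`, and for the projector `P` of `V` to the Tate module of `A i` (the image of the unit of
`E i`) for those of `A i`.

(3) *The theorems for all `A` as in (1)* (`TUT.CriterionAll`), without conditions on the fields, the multiplicities and the
endomorphisms (for these only the theorems in (1) are assumed).  The multiplicities are not degenerate (`TUT.Nondeg`) if there are no integers `z f`, not all zero, with
`z (conj f) = - z f` and `∑ f, z f * n σ f = 0` for all `σ`.

* **`AllTate` holds if and only if the multiplicities are not degenerate and `FourTate` holds for `A`**: so if there is an exotic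
  Tate class on some power of `A` and the multiplicities are not degenerate, there is one of degree four on the fourth power.
  Here two theorems are hypotheses: for the sufficiency that of Shimura (`TUT.IsShimura`: if `m i ≠ 1` there is `σ` such that not
  all multiplicities of `E i` are `0` or `m i * N i`), for the necessity of nondegeneracy that of Serre on locally algebraic
  characters (`TUT.IsSerre`).
* `AllTate` holds if the multiplicities are not degenerate, if there are no twists or no links, and if for every `i` one of the
  following holds: there are **one** `σ` and one embedding `φ` of `E i` with coprime `n σ φ / N i` and `n σ (conj φ) / N i`
  (`TUT.CoprimeAt`); `m i` is `1` or a prime number (also `2`); `FourTate` holds for `A i` alone (the last two with the theorem of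
  Shimura).
  *No twists* (`TUT.NoTwist`): for any two embeddings `f`, `g`, not equal or conjugate, with `m ≥ 2` for `f`, there is no linear map
  `Θ ≠ 0` from the part of `V ⊗ ℂ` of `f` to the part of `g` which is equivariant up to numbers `χ s`; this is necessary for
  `AllTate`.  *No links* (`TUT.NoLink`), a numerical condition, stronger: for any two embeddings `f`, `g`, not equal or conjugate,
  with the same `m ≥ 2`, there is `σ` such that `n σ f / N f ≠ n σ g / N g` and the multiplicities of `f` and `conj f`, or those of
  `g` and `conj g`, are not zero.

(4) *Products `B × A`, where `B` has no simple factors of type III or IV* (`TUT.Product`; every abelian variety without simple factors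
of type III is isogenous to such a product, after a finite extension of `K`).  Let `B` be a second abelian variety over `K`, with
Tate module `V'` and action `ρ'`; `B × A` has the Tate module `V' × V` with the action `ρ'.prod ρ`.  `HasMixed` says that there are a
Lie algebra `g` of endomorphisms of `(V' × V) ⊗ ℂ` and a multiplier `c` as in `IsMixed`: `g` acts semisimply and is spanned by its
Hodge elements, the idempotents `h` with `c h = 1` (Pink); it contains the scalars (Bogomolov); a multilinear form is killed by `g`
if and only if it is a combination of Tate forms over finite extensions of `K` (`g` is the Lie algebra of the image of the Galois
group, with complex coefficients: Faltings); the endomorphisms over finite extensions are defined over `K` and map the part of `B` to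
itself (there are no homomorphisms from `B` to `A`: Faltings); and, since no simple factor of `B` is of type III or IV, on every
subspace `U ≠ 0` of the part of `B` which is stable under the Galois group an alternating Tate form of degree two is not zero.  Then
**`AllTate` holds for `B × A` if and only if `FourTate` holds for `B × A` and the multiplicities for `A` are not degenerate** (with the
theorem of Shimura for the sufficiency, that of Serre for the necessity of nondegeneracy), and if and only if `FourTate` holds for
`B × A` and `AllTate` holds for `A`.

(5) *Separated fields* (`TUT.SeparatedAll`).  The family of the fields `E i` is separated (`TSP.Sep`) if for any two embeddings `x`,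
`y` in `ℂ` of the fields `E i`, `y` different from `x` and from its complex conjugate, there is an automorphism of `ℂ` which takes
`x` to its complex conjugate and fixes `y`.  Let the family be separated.

* The multiplicities are not degenerate **if and only if** for every `i` there are `σ` and `φ` with `n σ φ ≠ n σ (conj φ)`
  (`TUT.UnbalancedAt`).  So `AllTate` holds if this is so and `FourTate` holds for `A` (with the theorem of Shimura).
* `AllTate` holds if for every `i` there is a coprime pair as in (3) and `m i ≠ 2`; **in particular, without any condition on the
  multiplicities, if every `m i` is `1` or an odd prime number** (with the theorem of Shimura).
* `AllTate` holds if for every `i` there is a coprime pair, or `m i` is `1` or prime, or `FourTate` holds for `A i` and there are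
  `σ` and `φ` with different `n σ φ`, `n σ (conj φ)` which are both not zero (`TUT.SkewAt`), provided that for the `i` with
  `m i = 2` the following holds (`TUT.RankTwo`): the maximal real subfields of these `E i` have no subfields but `ℚ` and
  themselves, no two of them are isomorphic, and for each of these `i` there are `σ` and `φ` with `n σ φ ≠ n σ (conj φ)`.

(6) *One hundred per cent of all CM fields* of degree `2 g`, `g ≥ 3`, counted by their equations, are separated
(`TUT.AlmostAllFields`).  Every CM field of degree `2 g` is generated by a root of `t (X ^ 2)` for a monic integer polynomial `t` of
degree `g` all of whose roots are real and negative.  For any subset `Y` of the set of those with roots in `[-B, 0)` (`TUT.Tot g B`)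
which contains at least the part `δ > 0` of them, and all `r`, for all but at most the part `(r / δ) C exp (- c √(log B))` of the
`r`-tuples of members `t i` of `Y`, the number fields `E i` generated by roots of the `t i (X ^ 2)` are CM fields of degree `2 g`,
and the family is separated (`TUT.SepRoot`); `C` and `c > 0` depend on `g`.

(7) *Almost all multiplicities* (`TUT.AlmostAllSignatures`).  Let `E` be a CM field of degree `2 g`.  Of the `(m + 1) ^ g` functions
`s` on its embeddings with `s φ + s (conj φ) = m` (the multiplicities at one `σ`, divided by `N`) all but at most
`(m + 1 - φ(m)) ^ g` have a coprime pair (`φ(m)` is the totient; the part of the exceptions tends to `0` exponentially in `g`).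

If there is one field, imaginary quadratic, the condition of (5) on the fields is empty, and (5) for a coprime pair is a theorem of
Ribet and Chi (`N = 1`).  For `m i = 1` (complex multiplication) (3) is the criterion of nondegeneracy of CM types. -/
theorem Pool.Agent.Results.MP_021685_ag.UnitaryType.result :
    TUT.MainB ∧ TUT.AlmostAllFields ∧ TUT.AlmostAllSignatures ∧ TUT.Models :=
  ⟨TUT.mainB, TAL.cm_degree, TUT.almostAllSignatures,
    fun _ _ _ A l _ => Pool.Agent.Lib.MP_021685_agTT.exists_galMod A l⟩
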